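import Pool.Agent.W221.NS.Stm2

/-! ME-WB: bounds at unit scale. -/

set_option autoImplicit false

open MeasureTheory Set Metric
open scoped ContDiff

namespace Pool.Agent.W108.ME

open H459R3.NS W221.NS

theorem pd_cont {f : V → ℝ} (hf : ContDiff ℝ ∞ f) (j : Fin 3) : Continuous (pd j f) := by
  unfold pd
  exact (hf.continuous_fderiv (by simp)).clm_apply continuous_const

theorem comp_cd {v : V → V} (hv : ContDiff ℝ ∞ v) (i : Fin 3) :
    ContDiff ℝ ∞ (fun y => v y i) := contDiff_pi.1 hv i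

theorem nsq_cont {v : V → V} (hv : ContDiff ℝ ∞ v) : Continuous (nsq v) := by
  unfold nsq
  exact continuous_finsetSum _ fun i _ => (comp_cd hv i).continuous.pow 2

theorem gsq_cont {v : V → V} (hv : ContDiff ℝ ∞ v) : Continuous (gsq v) := by
  unfold gsq
  exact continuous_finsetSum _ fun i _ => continuous_finsetSum _ fun j _ =>
    (pd_cont (comp_cd hv i) j).pow 2

theorem nsq_nonneg (v : V → V) (z : V) : 0 ≤ nsq v z := Finset.sum_nonneg fun i _ => sq_nonneg _

theorem gsq_nonneg (v : V → V) (z : V) : 0 ≤ gsq v z :=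
  Finset.sum_nonneg fun i _ => Finset.sum_nonneg fun j _ => sq_nonneg _

theorem int_ball {f : V → ℝ} (hf : Continuous f) (r : ℝ) : IntegrableOn f (ball (0 : V) r) :=
  (hf.continuousOn.integrableOn_compact (isCompact_closedBall 0 r)).mono_set ball_subset_closedBall

theorem ball_mono {f g : V → ℝ} (hf : Continuous f) (hg : Continuous g) (a b : ℝ)
    (h : ∀ z ∈ ball (0 : V) 1, f z ≤ a * g z + b) :
    ∫ z in ball (0 : V) 1, f z ≤ a * (∫ z in ball (0 : V) 1, g z) + 8 * b := by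
  have h1 : ∫ z in ball (0 : V) 1, (a * g z + b) = a * (∫ z in ball (0 : V) 1, g z) + 8 * b := by
    rw [integral_add ((int_ball hg 1).const_mul a) (int_ball continuous_const 1),
      integral_const_mul, setIntegral_const]
    congr 1
    rw [smul_eq_mul, measureReal_def, Real.volume_pi_ball _ one_pos]
    norm_num
  rw [← h1]
  exact setIntegral_mono_on (int_ball hf 1) (int_ball ((continuous_const.mul hg).add continuous_const) 1)
    measurableSet_ball h

theorem ball_sub {f : V → ℝ} (hf : Continuous f) (h0 : ∀ z, 0 ≤ f z) (r s : ℝ) (hrs : r ≤ s) :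
    ∫ z in ball (0 : V) r, f z ≤ ∫ z in ball (0 : V) s, f z :=
  setIntegral_mono_set (int_ball hf s) (Filter.Eventually.of_forall h0)
    (HasSubset.Subset.eventuallyLE (ball_subset_ball hrs))

theorem t_WB (h1 : S_POINC) (h2 : S_UNIT) : S_WB := by
  obtain ⟨C1, hC1, h1⟩ := h1
  obtain ⟨C2, hC2, h2⟩ := h2
  refine ⟨2 * C1 + 146 + 3 * C2 + 24, by positivity, fun v W N P G S => ?_⟩
  have hBv : 0 ≤ B2 0 2 v := integral_nonneg fun z => gsq_nonneg v z
  have hB28 : B2 0 2 v ≤ B2 0 8 v := ball_sub (gsq_cont S.sv) (gsq_nonneg v) 2 8 (by norm_num)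
  have hB2G : B2 0 2 v ≤ G := hB28.trans S.grad
  have hG : 0 ≤ G := hBv.trans hB2G
  have hsG : √G ^ 2 = G := Real.sq_sqrt hG
  have hA12 : A2 0 1 v ≤ A2 0 2 v := ball_sub (nsq_cont S.sv) (nsq_nonneg v) 1 2 (by norm_num)
  have hAv : A2 0 1 v ≤ C1 * G :=
    hA12.trans ((h1 v S.sv S.mean).trans (mul_le_mul_of_nonneg_left hB2G hC1.le))
  have hB12 : B2 0 1 v ≤ G :=
    (ball_sub (gsq_cont S.sv) (gsq_nonneg v) 1 2 (by norm_num)).trans hB2G
  have hL4v : √(L4 0 1 v) ≤ C2 * G :=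
    (h2 v S.sv S.mean).trans (mul_le_mul_of_nonneg_left hB2G hC2.le)
  have hn : ∀ z ∈ ball (0 : V) 1, nsq W z ≤ 2 * nsq v z + 6 * G := by
    intro z hz
    have h3 : ∀ i, W z i ^ 2 ≤ 2 * v z i ^ 2 + 2 * G := by
      intro i
      have h4 := S.dD z hz i
      have h5 : (v z i - W z i) ^ 2 ≤ √G ^ 2 := sq_le_sq' (abs_le.1 h4).1 (abs_le.1 h4).2
      rw [hsG] at h5
      nlinarith [sq_nonneg (v z i + (v z i - W z i))]
    unfold nsq
    calc ∑ i, W z i ^ 2 ≤ ∑ i : Fin 3, (2 * v z i ^ 2 + 2 * G) := Finset.sum_le_sum fun i _ => h3 i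
      _ = 2 * (∑ i, v z i ^ 2) + 6 * G := by
          rw [Finset.sum_add_distrib, ← Finset.mul_sum, Finset.sum_const, Finset.card_univ,
            Fintype.card_fin, nsmul_eq_mul]
          push_cast
          ring
  have hn2 : ∀ z ∈ ball (0 : V) 1, nsq W z ^ 2 ≤ 8 * nsq v z ^ 2 + 72 * G ^ 2 := by
    intro z hz
    have h3 := hn z hz
    have h4 : nsq W z ^ 2 ≤ (2 * nsq v z + 6 * G) ^ 2 := pow_le_pow_left₀ (nsq_nonneg W z) h3 2
    nlinarith [sq_nonneg (2 * nsq v z - 6 * G)]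
  have hg : ∀ z ∈ ball (0 : V) 1, gsq W z ≤ 2 * gsq v z + 18 * G := by
    intro z hz
    have h3 : ∀ i j, pd j (fun y => W y i) z ^ 2 ≤ 2 * pd j (fun y => v y i) z ^ 2 + 2 * G := by
      intro i j
      have h4 := S.gD z hz i j
      have h6 : pd j (fun y => v y i - W y i) z = pd j (fun y => v y i) z - pd j (fun y => W y i) z := by
        unfold pd
        rw [fderiv_fun_sub ((comp_cd S.sv i).differentiable (by simp) z)
          ((comp_cd S.sW i).differentiable (by simp) z)]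
        rfl
      rw [h6] at h4
      have h5 := sq_le_sq' (abs_le.1 h4).1 (abs_le.1 h4).2
      rw [hsG] at h5
      nlinarith [sq_nonneg (pd j (fun y => v y i) z +
        (pd j (fun y => v y i) z - pd j (fun y => W y i) z))]
    unfold gsq
    calc ∑ i, ∑ j, pd j (fun y => W y i) z ^ 2 ≤
        ∑ i : Fin 3, ∑ j : Fin 3, (2 * pd j (fun y => v y i) z ^ 2 + 2 * G) :=
          Finset.sum_le_sum fun i _ => Finset.sum_le_sum fun j _ => h3 i j
      _ = 2 * (∑ i, ∑ j, pd j (fun y => v y i) z ^ 2) + 18 * G := by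
          simp only [Finset.sum_add_distrib, ← Finset.mul_sum, Finset.sum_const, Finset.card_univ,
            Fintype.card_fin, nsmul_eq_mul]
          push_cast
          ring
  have hAW : A2 0 1 W ≤ 2 * A2 0 1 v + 8 * (6 * G) :=
    ball_mono (nsq_cont S.sW) (nsq_cont S.sv) 2 (6 * G) hn
  have hBW : B2 0 1 W ≤ 2 * B2 0 1 v + 8 * (18 * G) :=
    ball_mono (gsq_cont S.sW) (gsq_cont S.sv) 2 (18 * G) hg
  have hLW : L4 0 1 W ≤ 8 * L4 0 1 v + 8 * (72 * G ^ 2) :=
    ball_mono ((nsq_cont S.sW).pow 2) ((nsq_cont S.sv).pow 2) 8 (72 * G ^ 2) hn2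
  have hLv0 : 0 ≤ L4 0 1 v := integral_nonneg fun z => sq_nonneg _
  have hsL : √(L4 0 1 W) ≤ 3 * √(L4 0 1 v) + 24 * G := by
    rw [Real.sqrt_le_left (by positivity)]
    have h3 : √(L4 0 1 v) ^ 2 = L4 0 1 v := Real.sq_sqrt hLv0
    nlinarith [Real.sqrt_nonneg (L4 0 1 v), mul_nonneg (Real.sqrt_nonneg (L4 0 1 v)) hG]
  have e1 : 0 ≤ C1 * G := by positivity
  have e2 : 0 ≤ C2 * G := by positivity
  refine ⟨?_, ?_, ?_, ?_⟩ <;> nlinarith

end Pool.Agent.W108.ME
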